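import Pool.Agent.H61.KU.TB

/-!
# Module CLO of the board ku_modules
-/

set_option autoImplicit false

open Topology Set
open Pool.Agent.H59 Pool.Agent.H64.LB Pool.Agent.H61.KU

namespace Pool.Agent.H85.KU

/-- coordinates of the points of `cv v F` -/
lemma mem_cv_iff {ι : Type} [Fintype ι] [DecidableEq ι] (v : ι → E8) (F : Finset ι) (x : E8) :
    x ∈ cv v F ↔
    ∃ w : ι → ℝ, (∀ i, 0 ≤ w i) ∧ (∀ i, i ∉ F → w i = 0) ∧ ∑ i, w i = 1 ∧
      x = ∑ i, w i • v i := by
  unfold cv
  constructor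
  · intro hx
    have hsub : convexHull ℝ (v '' (F : Set ι)) ⊆ {x : E8 | ∃ w : ι → ℝ, (∀ i, 0 ≤ w i) ∧
        (∀ i, i ∉ F → w i = 0) ∧ ∑ i, w i = 1 ∧ x = ∑ i, w i • v i} := by
      apply convexHull_min
      · rintro _ ⟨i, hi, rfl⟩
        refine ⟨fun j => if j = i then 1 else 0, ?_, ?_, ?_, ?_⟩
        · intro j
          dsimp only
          split_ifs <;> norm_num
        · intro j hj
          dsimp only
          rw [if_neg]
          rintro rfl
          exact hj hi
        · simp
        · simp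
      · rintro x ⟨w, h1, h2, h3, rfl⟩ y ⟨w', h1', h2', h3', rfl⟩ a b ha hb hab
        refine ⟨fun i => a * w i + b * w' i, ?_, ?_, ?_, ?_⟩
        · intro i
          exact add_nonneg (mul_nonneg ha (h1 i)) (mul_nonneg hb (h1' i))
        · intro i hi
          simp [h2 i hi, h2' i hi]
        · rw [Finset.sum_add_distrib, ← Finset.mul_sum, ← Finset.mul_sum, h3, h3', mul_one,
            mul_one, hab]
        · rw [Finset.smul_sum, Finset.smul_sum, ← Finset.sum_add_distrib]
          refine Finset.sum_congr rfl fun i _ => ?_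
          rw [add_smul, mul_smul, mul_smul]
    exact hsub hx
  · rintro ⟨w, hw0, hwF, hw1, rfl⟩
    have e1 : ∑ i, w i • v i = ∑ i ∈ F, w i • v i := by
      symm
      apply Finset.sum_subset (Finset.subset_univ F)
      intro i _ hi
      rw [hwF i hi, zero_smul]
    have e2 : ∑ i ∈ F, w i = 1 := by
      rw [← hw1]
      apply Finset.sum_subset (Finset.subset_univ F)
      intro i _ hi
      exact hwF i hi
    rw [e1]
    exact (convex_convexHull ℝ _).sum_mem (fun i _ => hw0 i) e2
      (fun i hi => subset_convexHull ℝ _ ⟨i, hi, rfl⟩)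

lemma coord_unique {ι : Type} [Fintype ι] (v : ι → E8) (hv : AffineIndependent ℝ v)
    (w w' : ι → ℝ) (h1 : ∑ i, w i = 1) (h1' : ∑ i, w' i = 1)
    (h : ∑ i, w i • v i = ∑ i, w' i • v i) : ∀ i, w i = w' i := by
  intro i
  have h2 := (affineIndependent_iff.mp hv) Finset.univ (fun i => w i - w' i)
    (by rw [Finset.sum_sub_distrib, h1, h1', sub_self])
    (by
      simp only [sub_smul, Finset.sum_sub_distrib]
      rw [h, sub_self]) i (Finset.mem_univ i)
  exact sub_eq_zero.mp h2

lemma isCompact_cv {ι : Type} [Fintype ι] (v : ι → E8) (F : Finset ι) : IsCompact (cv v F) :=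
  (F.finite_toSet.image v).isCompact_convexHull ℝ

theorem pf_clo (hX : T_XHO) (hC : T_CPX) (hR : T_PRE) (h1 : T_LO1) (h2 : T_LO2) : T_CLO := by
  intro f v A hf hv hA hAG hS3 hcl x hx
  obtain ⟨hpath, hPt, -, -, -, hcomp, hT2⟩ := hX
  have := hpath
  have := hcomp
  have := hT2
  set K : Finset (Finset (Fin 9)) := Finset.powersetCard 3 Finset.univ with hK
  set S : Set E8 := ⋃ s ∈ K, cv v s with hS
  set Z : Set E8 := ⋃ G ∈ A, cv v G with hZ
  set B : Set (PN 2) := f ⁻¹' S with hB
  have hKc : ∀ s, s ∈ K ↔ s.card = 3 := by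
    intro s
    rw [hK, Finset.mem_powersetCard]
    exact ⟨fun h => h.2, fun h => ⟨Finset.subset_univ s, h⟩⟩
  have hZc : IsCompact Z := by
    rw [hZ]
    exact A.isCompact_biUnion fun G _ => isCompact_cv v G
  have hEL : EL (PN 2) (3 - 3) B :=
    hC (PN 2) hPt (Fin 9) E8 f v hf hv 3 K le_rfl (by
      intro s hs
      exact ⟨((hKc s).mp hs).le, hS3 s ((hKc s).mp hs)⟩)
  have hpre : PreconnectedSpace ↥(Bᶜ) :=
    hR (PN 2) ↥(Bᶜ) (inc Bᶜ) (hEL.1 0 (Nat.zero_le _))
  -- points outside `S` have at least four positive coordinates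
  have hfour : ∀ (w : Fin 9 → ℝ), (∀ i, 0 ≤ w i) → ∑ i, w i = 1 → ∑ i, w i • v i ∉ S →
      4 ≤ (Finset.univ.filter (fun i => w i ≠ 0)).card := by
    intro w hw0 hw1 hnS
    by_contra hcon
    push Not at hcon
    obtain ⟨s, hs1, -, hs3⟩ := Finset.exists_subsuperset_card_eq
      (Finset.subset_univ (Finset.univ.filter (fun i => w i ≠ 0))) (n := 3) (by omega)
      (by simp)
    apply hnS
    rw [hS]
    refine mem_biUnion ((hKc s).mpr hs3) ?_
    rw [mem_cv_iff]
    refine ⟨w, hw0, ?_, hw1, rfl⟩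
    intro i hi
    by_contra hne
    exact hi (hs1 (Finset.mem_filter.mpr ⟨Finset.mem_univ i, hne⟩))
  -- local statement
  have hloc : ∀ y : PN 2, f y ∈ Z → y ∉ B → ∃ O : Set (PN 2), IsOpen O ∧ y ∈ O ∧
      ∀ z ∈ O, f z ∈ Z := by
    intro y hyZ hyB
    rw [hZ] at hyZ
    simp only [mem_iUnion, exists_prop] at hyZ
    obtain ⟨G, hG, hyG⟩ := hyZ
    obtain ⟨w, hw0, hwG, hw1, hfy⟩ := (mem_cv_iff v G (f y)).mp hyG
    set P : Finset (Fin 9) := Finset.univ.filter (fun i => w i ≠ 0) with hP
    have hPG : P ⊆ G := by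
      intro i hi
      by_contra hiG
      exact (Finset.mem_filter.mp hi).2 (hwG i hiG)
    have hP4 : 4 ≤ P.card := by
      apply hfour w hw0 hw1
      rw [← hfy]
      exact hyB
    have hpos : ∀ i ∈ P, 0 < w i := fun i hi =>
      lt_of_le_of_ne (hw0 i) (Ne.symm (Finset.mem_filter.mp hi).2)
    have hzero : ∀ i, i ∉ P → w i = 0 := by
      intro i hi
      by_contra hne
      exact hi (Finset.mem_filter.mpr ⟨Finset.mem_univ i, hne⟩)
    have hG5 : G.card = 5 := (hAG G hG).1
    have hPle : P.card ≤ 5 := hG5 ▸ Finset.card_le_card hPG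
    have hZsub : ∀ G' ∈ A, cv v G' ⊆ Z := fun G' hG' => by
      rw [hZ]
      exact subset_biUnion_of_mem (u := fun G => cv v G) hG'
    rcases Nat.lt_or_ge P.card 5 with h5 | h5
    · have hP4' : P.card = 4 := by omega
      have hcd : (G \ P).card = 1 := by
        rw [Finset.card_sdiff_of_subset hPG]
        omega
      obtain ⟨a, ha⟩ := Finset.card_eq_one.mp hcd
      have haP : a ∉ P := by
        have : a ∈ G \ P := by rw [ha]; exact Finset.mem_singleton_self a
        exact (Finset.mem_sdiff.mp this).2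
      have hGa : insert a P = G := by
        rw [Finset.insert_eq, ← ha]
        exact Finset.sdiff_union_of_subset hPG
      have haA : insert a P ∈ A := by rw [hGa]; exact hG
      obtain ⟨b, hbP, hba, hbA⟩ := hcl P hP4' a haP haA
      obtain ⟨O, hO, hyO, hOz⟩ := h2 f v P a b w y hf hv hP4' haP hbP (Ne.symm hba)
        (hAG _ haA).2 (hAG _ hbA).2 hpos hzero hw1 hfy
      refine ⟨O, hO, hyO, ?_⟩
      intro z hz
      rcases hOz z hz with h | h
      · exact hZsub _ haA h
      · exact hZsub _ hbA h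
    · have hPeq : P = G := Finset.eq_of_subset_of_card_le hPG (by omega)
      obtain ⟨O, hO, hyO, hOz⟩ := h1 f v G w y hf hv hG5 (hAG G hG).2
        (fun i hi => hpos i (hPeq ▸ hi)) (fun i hi => hzero i (fun h => hi (hPeq ▸ h))) hw1 hfy
      exact ⟨O, hO, hyO, fun z hz => hZsub G hG (hOz z hz)⟩
  -- the clopen set
  set Q : Set ↥(Bᶜ) := {y | f y.1 ∈ Z} with hQ
  have hQclosed : IsClosed Q :=
    hZc.isClosed.preimage (f.continuous.comp continuous_subtype_val)
  have hQopen : IsOpen Q := by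
    rw [isOpen_iff_forall_mem_open]
    intro y hy
    obtain ⟨O, hO, hyO, hOz⟩ := hloc y.1 hy y.2
    exact ⟨Subtype.val ⁻¹' O, fun z hz => hOz z.1 hz, hO.preimage continuous_subtype_val, hyO⟩
  have hQne : Q.Nonempty := by
    obtain ⟨G, hG⟩ := hA
    have hG5 : G.card = 5 := (hAG G hG).1
    set w : Fin 9 → ℝ := fun i => if i ∈ G then 1 / 5 else 0 with hw
    have hw0 : ∀ i, 0 ≤ w i := by
      intro i
      rw [hw]
      dsimp only
      split_ifs <;> norm_num
    have hwG : ∀ i, i ∉ G → w i = 0 := by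
      intro i hi
      rw [hw]
      dsimp only
      rw [if_neg hi]
    have hw1 : ∑ i, w i = 1 := by
      rw [hw, Finset.sum_ite_mem, Finset.univ_inter, Finset.sum_const, hG5]
      norm_num
    have hc : ∑ i, w i • v i ∈ cv v G := (mem_cv_iff v G _).mpr ⟨w, hw0, hwG, hw1, rfl⟩
    obtain ⟨y, hy⟩ := (hAG G hG).2 hc
    have hyB : y ∉ B := by
      intro hyB
      rw [hB, mem_preimage, hS] at hyB
      simp only [mem_iUnion, exists_prop] at hyB
      obtain ⟨s, hs, hys⟩ := hyB
      obtain ⟨w', hw'0, hw's, hw'1, hfy⟩ := (mem_cv_iff v s (f y)).mp hys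
      have huniq := coord_unique v hv w w' hw1 hw'1 (by rw [← hy]; exact hfy)
      have hGs : G ⊆ s := by
        intro i hi
        by_contra his
        have e := huniq i
        rw [hw's i his, hw] at e
        dsimp only at e
        rw [if_pos hi] at e
        norm_num at e
      have := Finset.card_le_card hGs
      rw [hG5, (hKc s).mp hs] at this
      omega
    refine ⟨⟨y, hyB⟩, ?_⟩
    change f y ∈ Z
    rw [hy, hZ]
    exact mem_biUnion hG hc
  have hQuniv : Q = univ := IsClopen.eq_univ ⟨hQclosed, hQopen⟩ hQne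
  obtain ⟨y, rfl⟩ := hx
  by_cases hyB : y ∈ B
  · right
    rw [hB, mem_preimage, hS] at hyB
    simp only [mem_iUnion, exists_prop] at hyB
    obtain ⟨s, hs, hys⟩ := hyB
    exact ⟨s, (hKc s).mp hs, hys⟩
  · left
    have hmem : (⟨y, hyB⟩ : ↥(Bᶜ)) ∈ Q := by rw [hQuniv]; exact mem_univ _
    have hmem' : f y ∈ Z := hmem
    rw [hZ] at hmem'
    simp only [mem_iUnion, exists_prop] at hmem'
    exact hmem'

end Pool.Agent.H85.KU
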