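import Pool.Agent.H61.KU.TB

/-!
# Module P1 of the board ku_modules
-/

set_option autoImplicit false

open Topology Set
open Pool.Agent.H59 Pool.Agent.H64.LB Pool.Agent.H61.KU

namespace Pool.Agent.H85.KU

/-- a linear functional on `E8 × ℝ` through an inner product -/
lemma riesz (l : E8 × ℝ →ₗ[ℝ] ℝ) : ∃ (ξ : E8) (b : ℝ), ∀ x : E8,
    l (x, 1) = inner ℝ ξ x + b := by
  set g : E8 →ₗ[ℝ] ℝ := l.comp (LinearMap.inl ℝ E8 ℝ) with hg
  set g' : StrongDual ℝ E8 := LinearMap.toContinuousLinearMap g with hg'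
  refine ⟨(InnerProductSpace.toDual ℝ E8).symm g', l (0, 1), ?_⟩
  intro x
  rw [InnerProductSpace.toDual_symm_apply]
  have e1 : g' x = l (x, 0) := rfl
  rw [e1, ← map_add]
  simp

lemma nontrivial_absurd {A B : Type} (h : Nontrivial A) (hB : Subsingleton B) (g : A → B)
    (hg : Function.Injective g) : False := by
  have := hg.subsingleton
  exact not_nontrivial A h

theorem pf_p1 (hX : T_XHO) (hS : T_SPH) (_hP : T_PNT) (hL : T_LFT) (hG : T_GAU) (h0 : T_CR0)
    (hU : T_SUP) (hV : T_FCV) (hT : T_TOP) (hF : T_FAC) : T_P1 := by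
  intro ι _ _ f v hs T hE
  obtain ⟨hTf, hTn, hTp⟩ := hE
  obtain ⟨hS1, -, -, z0, hz0, hz0'⟩ := hS
  obtain ⟨hpath, hPt, hX1, hX3, hX5, -, -⟩ := hX
  obtain ⟨hV1, -, -, hV4, -⟩ := hV ι v
  obtain ⟨-, -, -, -, hF5, -, -⟩ := hF ι (E8 × ℝ) (hom v)
  have hconf := hs.conf
  -- rank at least one
  have hne : T ≠ ∅ := by
    rintro rfl
    apply hTn
    unfold cv
    simp
  have hpos : ∀ G : Finset ι, IsFace (hom v) G → G ≠ ∅ → 0 < rk (hom v) G := by
    intro G _ hGne
    exact lt_of_le_of_lt (Nat.zero_le _)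
      (hF5 ∅ G hconf.empty (Finset.empty_ssubset.mpr (Finset.nonempty_iff_ne_empty.mpr hGne)))
  have h1 : 0 < rk (hom v) T := hpos T hTf hne
  have h2 : rk (hom v) T ≠ 1 := by
    intro h2
    obtain ⟨i, hi⟩ := Finset.nonempty_iff_ne_empty.mpr hne
    by_cases hT1 : T = {i}
    · apply hTn
      rw [hT1]
      unfold cv
      rw [Finset.coe_singleton, image_singleton, convexHull_singleton, singleton_subset_iff]
      exact hs.vert i
    · have hss : ({i} : Finset ι) ⊂ T :=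
        (Finset.singleton_subset_iff.mpr hi).ssubset_of_ne (Ne.symm hT1)
      have e1 := hF5 {i} T (hconf.single i) hss
      have e2 := hpos {i} (hconf.single i) (Finset.singleton_ne_empty i)
      omega
  obtain ⟨d, hd⟩ : ∃ d, rk (hom v) T = d + 1 + 1 := ⟨rk (hom v) T - 2, by omega⟩
  obtain ⟨p, hpT, hpf⟩ := not_subset.mp hTn
  obtain ⟨j, hj, hj0, hjT, hKc, hKv, hKi⟩ := h0 ι v T (d + 1) p hd hpT
  set K : Set (Fin (d + 1) → ℝ) := j ⁻¹' cv v T with hK
  have hprop : ∀ y, j y ∈ cv v T → y ∉ interior K → j y ∈ range f := by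
    intro y hy hyi
    obtain ⟨G, hGf, hGT, hyG⟩ := hU ι (Fin (d + 1) → ℝ) v T j hTf hj hjT hKi y hy hyi
    exact hTp G hGf hGT hyG
  have h0K : (0 : Fin (d + 1) → ℝ) ∈ interior K := by
    by_contra hcon
    exact hpf (hj0 ▸ hprop 0 (by rw [hj0]; exact hpT) hcon)
  obtain ⟨hg1, hg2, hg3, -, -, -⟩ := hG (Fin (d + 1) → ℝ) K hKc hKv h0K
  have hfrK : ∀ y ∈ frontier K, j y ∈ cv v T ∧ j y ∈ range f := by
    intro y hy
    have hyK : y ∈ K := hKc.isClosed.frontier_subset hy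
    exact ⟨hyK, hprop y hyK hy.2⟩
  have hjc : Continuous j := AffineMap.continuous_of_finiteDimensional j
  have hrc : Continuous (fun u : Sph d => rad K u.1) := by
    have e1 : Continuous (fun u : Sph d => gauge K u.1) := hg2.comp continuous_subtype_val
    have e2 : Continuous (fun u : Sph d => (gauge K u.1)⁻¹) :=
      e1.inv₀ (fun u => (hg1 u.1 u.2).ne')
    have e3 : Continuous (fun u : Sph d => u.1) := continuous_subtype_val
    exact e2.smul e3
  set φ : C(Sph d, E8) := ⟨fun u => j (rad K u.1), hjc.comp hrc⟩ with hφ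
  have hφf : ∀ u, φ u ∈ range f := fun u => (hfrK _ (hg3 u.1 u.2)).2
  obtain ⟨α, hα⟩ := hL f hs.inj (Sph d) φ hφf
  have hαT : ∀ u, f (α u) ∈ cv v T := fun u => by
    rw [hα u]
    exact (hfrK _ (hg3 u.1 u.2)).1
  obtain ⟨l, hl0, hlT⟩ := hTf
  obtain ⟨ξ, b, hξ⟩ := riesz l
  obtain ⟨hl1, hl2⟩ := hV1 T l hl0 hlT
  have hinj : ∀ i, Function.Injective (HH.map (ZMod 2) i α) := by
    refine hT ι f v hs d j K ξ (-b) α hj hKc hKv h0K (by rw [hj0]; exact hpf) ?_ ?_ ?_ ?_
    · intro y hy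
      have e1 := (hl2 (j y) ((hV4 T).1 hy)).mpr hy
      rw [hξ] at e1
      linarith
    · intro x
      have e1 := hl1 (f x) (hs.hull x)
      rw [hξ] at e1
      linarith
    · intro x hx
      have e1 : l (f x, 1) = 0 := by rw [hξ, hx]; ring
      have e2 := (hl2 (f x) (hs.hull x)).mp e1
      obtain ⟨y, hy⟩ := hjT e2
      exact ⟨y, by rw [hK, mem_preimage, hy]; exact e2, hy⟩
    · intro u
      rw [hα u]
      rfl
  -- the cases
  match d, hd, α, hαT, hinj with
  | 0, _, α, _, hinj =>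
    exfalso
    apply hz0
    apply hinj 0
    rw [hz0' (PN 2) α, map_zero]
  | 1, _, α, _, hinj => exact (nontrivial_absurd (hS1 1) hX1 _ (hinj 1)).elim
  | 2, hd, α, hαT, hinj => exact ⟨hd, α, hinj 2, hαT⟩
  | 3, _, α, _, hinj => exact (nontrivial_absurd (hS1 3) hX3 _ (hinj 3)).elim
  | 4, hd, α, hαT, hinj =>
    exfalso
    have hTu : T ≠ Finset.univ := by
      intro h
      rw [h] at hd
      unfold rk at hd
      rw [hconf.span, finrank_top] at hd
      simp at hd
    obtain ⟨i, hi⟩ : ∃ i, i ∉ T := by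
      by_contra hcon
      push Not at hcon
      exact hTu (Finset.eq_univ_of_forall hcon)
    obtain ⟨y0, hy0⟩ := hs.vert i
    have hvi : v i ∉ cv v T := by
      intro h
      have e1 := (hl2 (v i) (subset_convexHull ℝ _ ⟨i, rfl⟩)).mpr h
      exact hi ((hlT i).mp e1)
    have hαy : ∀ u, α u ∈ ({y0} : Set (PN 2))ᶜ := by
      intro u hu
      rw [mem_singleton_iff] at hu
      apply hvi
      rw [← hy0, ← hu]
      exact hαT u
    set α' : C(Sph 4, ↥(({y0} : Set (PN 2))ᶜ)) := ⟨fun u => ⟨α u, hαy u⟩,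
      α.continuous.subtype_mk _⟩ with hα'
    have hcomp : α = (inc ({y0} : Set (PN 2))ᶜ).comp α' := by
      ext u
      rfl
    have hsub : Subsingleton (HH (ZMod 2) 4 ↥(({y0} : Set (PN 2))ᶜ)) := (hPt y0).2 4 le_rfl
    have hinj' : Function.Injective (HH.map (ZMod 2) 4 α') := by
      intro a b hab
      apply hinj 4
      rw [hcomp, HH.map_comp, HH.map_comp, hab]
    exact nontrivial_absurd (hS1 4) hsub _ hinj'
  | d + 5, _, α, _, hinj =>
    exact (nontrivial_absurd (hS1 (d + 5)) (hX5 (d + 5) (by omega)) _ (hinj (d + 5))).elim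

end Pool.Agent.H85.KU
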